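import Pool.Agent.H242.GX.Stm4

/-!
# GX4-CUTK (helper86, for helper242): the cut-off near the axis; adaptation of the proof of GX-CUT
(`Pool/Agent/H767/GX/CUT.lean`, helper767)
-/

open Set Filter Topology
open scoped ContDiff

namespace Pool.Agent.H86.GX

open Pool.Agent.H242.GX

/-- the one-sided cut-off -/
noncomputable def hc (κ : ℝ) (x : ℝ × ℝ) : ℝ :=
  Real.smoothTransition (x.1 * Real.exp (-x.2) / κ - 1)

lemma hc_smooth (κ : ℝ) : ContDiff ℝ ∞ (hc κ) := by
  unfold hc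
  exact Real.smoothTransition.contDiff.comp
    (((contDiff_fst.mul (contDiff_snd.neg.exp)).div_const κ).sub contDiff_const)

lemma hc_zero {κ : ℝ} (hκ : 0 < κ) {x : ℝ × ℝ} (hx : x.1 ≤ κ * Real.exp x.2) : hc κ x = 0 := by
  unfold hc
  apply Real.smoothTransition.zero_of_nonpos
  have h1 : x.1 * Real.exp (-x.2) ≤ κ * Real.exp x.2 * Real.exp (-x.2) :=
    mul_le_mul_of_nonneg_right hx (Real.exp_pos _).le
  rw [mul_assoc, ← Real.exp_add, add_neg_cancel, Real.exp_zero, mul_one] at h1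
  have h2 : x.1 * Real.exp (-x.2) / κ ≤ 1 := (div_le_one hκ).2 h1
  linarith

lemma hc_one {κ : ℝ} (hκ : 0 < κ) {x : ℝ × ℝ} (hx : 2 * κ * Real.exp x.2 ≤ x.1) :
    hc κ x = 1 := by
  unfold hc
  apply Real.smoothTransition.one_of_one_le
  have h1 : 2 * κ * Real.exp x.2 * Real.exp (-x.2) ≤ x.1 * Real.exp (-x.2) :=
    mul_le_mul_of_nonneg_right hx (Real.exp_pos _).le
  rw [mul_assoc, ← Real.exp_add, add_neg_cancel, Real.exp_zero, mul_one] at h1
  have h2 : 2 ≤ x.1 * Real.exp (-x.2) / κ := by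
    rw [le_div_iff₀ hκ]
    exact h1
  linarith

/-- the derivatives are bounded on the axis -/
lemma bound0 {κ : ℝ} (hκ : 0 < κ) (n : ℕ) :
    ∃ K : ℝ, ∀ t : ℝ, ‖iteratedFDeriv ℝ n (hc κ) (t, 0)‖ ≤ K := by
  have hcont : Continuous fun t : ℝ => iteratedFDeriv ℝ n (hc κ) (t, (0 : ℝ)) :=
    ((hc_smooth κ).continuous_iteratedFDeriv (by exact_mod_cast le_top)).comp
      (continuous_id.prodMk continuous_const)
  obtain ⟨K, hK⟩ := (isCompact_Icc (a := κ) (b := 2 * κ)).exists_bound_of_continuousOn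
    hcont.continuousOn
  have hK0 : 0 ≤ K := (norm_nonneg _).trans (hK κ ⟨le_refl _, by linarith⟩)
  refine ⟨K + 1, fun t => ?_⟩
  have hexp : Continuous fun x : ℝ × ℝ => Real.exp x.2 := by fun_prop
  rcases lt_or_ge t κ with ht | ht
  · have hev : hc κ =ᶠ[𝓝 ((t, 0) : ℝ × ℝ)] fun _ => 0 := by
      have : ∀ᶠ x : ℝ × ℝ in 𝓝 ((t, 0) : ℝ × ℝ), x.1 < κ * Real.exp x.2 :=
        (isOpen_lt continuous_fst (continuous_const.mul hexp)).mem_nhds (by
          show t < κ * Real.exp 0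
          rw [Real.exp_zero, mul_one]
          exact ht)
      exact this.mono fun x hx => hc_zero hκ hx.le
    rw [(Filter.EventuallyEq.iteratedFDeriv ℝ hev n).eq_of_nhds]
    have : iteratedFDeriv ℝ n (fun _ : ℝ × ℝ => (0 : ℝ)) (t, 0) = 0 := by
      rw [iteratedFDeriv_fun_zero]
      rfl
    rw [this, norm_zero]
    linarith
  · rcases le_or_gt t (2 * κ) with ht2 | ht2
    · exact (hK t ⟨ht, ht2⟩).trans (by linarith)
    · have hev : hc κ =ᶠ[𝓝 ((t, 0) : ℝ × ℝ)] fun _ => 1 := by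
        have : ∀ᶠ x : ℝ × ℝ in 𝓝 ((t, 0) : ℝ × ℝ), 2 * κ * Real.exp x.2 < x.1 :=
          (isOpen_lt (continuous_const.mul hexp) continuous_fst).mem_nhds (by
            show 2 * κ * Real.exp 0 < t
            rw [Real.exp_zero, mul_one]
            exact ht2)
        exact this.mono fun x hx => hc_one hκ hx.le
      rw [(Filter.EventuallyEq.iteratedFDeriv ℝ hev n).eq_of_nhds]
      rcases Nat.eq_zero_or_pos n with hn | hn
      · subst hn
        rw [norm_iteratedFDeriv_zero]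
        simp only [norm_one]
        linarith
      · rw [iteratedFDeriv_const_of_ne hn.ne', Pi.zero_apply, norm_zero]
        linarith

/-- the linear map `(φ, w) ↦ (c φ, w)` -/
noncomputable def sc (c : ℝ) : ℝ × ℝ →L[ℝ] ℝ × ℝ :=
  (c • ContinuousLinearMap.fst ℝ ℝ ℝ).prod (ContinuousLinearMap.snd ℝ ℝ ℝ)

lemma sc_apply (c : ℝ) (x : ℝ × ℝ) : sc c x = (c * x.1, x.2) := rfl

lemma sc_norm {c : ℝ} (hc : 1 ≤ |c|) : ‖sc c‖ ≤ |c| := by
  refine ContinuousLinearMap.opNorm_le_bound _ (abs_nonneg c) fun x => ?_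
  rw [sc_apply, Prod.norm_def, Prod.norm_def]
  simp only [Real.norm_eq_abs, abs_mul]
  apply max_le
  · exact mul_le_mul_of_nonneg_left (le_max_left _ _) (abs_nonneg c)
  · calc |x.2| ≤ max |x.1| |x.2| := le_max_right _ _
      _ = 1 * max |x.1| |x.2| := (one_mul _).symm
      _ ≤ |c| * max |x.1| |x.2| :=
        mul_le_mul_of_nonneg_right hc ((abs_nonneg _).trans (le_max_left _ _))

/-- derivatives of a composition with an affine map -/
lemma aff_bound (f : ℝ × ℝ → ℝ) (hf : ContDiff ℝ ∞ f) (c : ℝ) (hc : 1 ≤ |c|) (b x : ℝ × ℝ)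
    (n : ℕ) (K : ℝ) (hK : ‖iteratedFDeriv ℝ n f (sc c x + b)‖ ≤ K) :
    ‖iteratedFDeriv ℝ n (fun y => f (sc c y + b)) x‖ ≤ K * |c| ^ n := by
  have h1 : ContDiff ℝ ∞ fun y : ℝ × ℝ => f (y + b) := hf.comp (contDiff_id.add contDiff_const)
  have h2 := (sc c).iteratedFDeriv_comp_right h1 x (i := n) (by exact_mod_cast le_top)
  have h3 : ((fun y : ℝ × ℝ => f (y + b)) ∘ (sc c)) = fun y => f (sc c y + b) := rfl
  rw [h3] at h2
  rw [h2, iteratedFDeriv_comp_add_right]
  refine (ContinuousMultilinearMap.norm_compContinuousLinearMap_le _ _).trans ?_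
  rw [Finset.prod_const, Finset.card_univ, Fintype.card_fin]
  have hK0 : 0 ≤ K := (norm_nonneg _).trans hK
  exact mul_le_mul hK (pow_le_pow_left₀ (norm_nonneg _) (sc_norm hc) n)
    (pow_nonneg (norm_nonneg _) n) hK0

lemma one_le_exp {w : ℝ} (hw : w ≤ 0) : 1 ≤ Real.exp (-w) := Real.one_le_exp (by linarith)

lemma bound1 {κ : ℝ} (hκ : 0 < κ) (n : ℕ) : ∃ K : ℝ, 0 ≤ K ∧ ∀ x : ℝ × ℝ, x.2 ≤ 0 →
    ‖iteratedFDeriv ℝ n (hc κ) x‖ ≤ K * Real.exp (-x.2) ^ n := by
  obtain ⟨K, hK⟩ := bound0 hκ n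
  refine ⟨K, (norm_nonneg _).trans (hK 0), fun x hx => ?_⟩
  set c := Real.exp (-x.2) with hcdef
  have hc0 : 0 < c := Real.exp_pos _
  have habs : |c| = c := abs_of_pos hc0
  have hfun : hc κ = fun y => hc κ (sc c y + (0, -x.2)) := by
    funext y
    rw [sc_apply]
    unfold hc
    simp only [Prod.mk_add_mk, add_zero]
    congr 3
    rw [hcdef, mul_comm (Real.exp _) y.1, mul_assoc, ← Real.exp_add]
    congr 2
    ring
  have h := aff_bound (hc κ) (hc_smooth κ) c (by rw [habs]; exact one_le_exp hx) (0, -x.2) x n K (by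
    rw [sc_apply]
    simp only [Prod.mk_add_mk, add_zero, add_neg_cancel]
    exact hK _)
  rw [← hfun, habs] at h
  exact h

/-- the reflected cut-off -/
noncomputable def hr (κ : ℝ) (x : ℝ × ℝ) : ℝ := hc κ (sc (-1) x + (2 * Real.pi, 0))

lemma hr_eq (κ : ℝ) (x : ℝ × ℝ) : hr κ x = hc κ (2 * Real.pi - x.1, x.2) := by
  unfold hr
  rw [sc_apply]
  simp only [Prod.mk_add_mk, add_zero]
  congr 2
  ring

lemma hr_smooth (κ : ℝ) : ContDiff ℝ ∞ (hr κ) := by
  unfold hr
  exact (hc_smooth κ).comp ((sc (-1)).contDiff.add contDiff_const)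

lemma bound2 {κ : ℝ} (hκ : 0 < κ) (n : ℕ) : ∃ K : ℝ, 0 ≤ K ∧ ∀ x : ℝ × ℝ, x.2 ≤ 0 →
    ‖iteratedFDeriv ℝ n (hr κ) x‖ ≤ K * Real.exp (-x.2) ^ n := by
  obtain ⟨K, hK0, hK⟩ := bound1 hκ n
  refine ⟨K, hK0, fun x hx => ?_⟩
  have h := aff_bound (hc κ) (hc_smooth κ) (-1) (by simp) (2 * Real.pi, 0) x n
    (K * Real.exp (-x.2) ^ n) (by
      have := hK (sc (-1) x + (2 * Real.pi, 0)) (by
        rw [sc_apply]
        simpa using hx)
      rw [sc_apply] at this ⊢
      simpa using this)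
  rw [abs_neg, abs_one, one_pow, mul_one] at h
  exact h

theorem gx_CUTK : S_CUTK := by
  intro κ hκ
  refine ⟨fun x => hc κ x * hr κ x, (hc_smooth κ).mul (hr_smooth κ), ?_, ?_, ?_⟩
  · rintro x (hx | hx)
    · show hc κ x * hr κ x = 0
      rw [hc_zero hκ hx, zero_mul]
    · show hc κ x * hr κ x = 0
      rw [hr_eq, hc_zero hκ (x := (2 * Real.pi - x.1, x.2)) (by
        show 2 * Real.pi - x.1 ≤ κ * Real.exp x.2
        linarith), mul_zero]
  · intro x h1 h2
    show hc κ x * hr κ x = 1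
    rw [hr_eq, hc_one hκ h1, hc_one hκ (x := (2 * Real.pi - x.1, x.2)) h2, one_mul]
  · intro n
    choose K hK0 hK using fun n => bound1 hκ n
    choose K' hK0' hK' using fun n => bound2 hκ n
    refine ⟨∑ i ∈ Finset.range (n + 1), (n.choose i : ℝ) * K i * K' (n - i), fun x hx => ?_⟩
    set c := Real.exp (-x.2) with hcdef
    have hc0 : 0 < c := Real.exp_pos _
    have h1 := norm_iteratedFDeriv_mul_le (n := n) (N := ∞) (hc_smooth κ) (hr_smooth κ) x
      (by exact_mod_cast le_top)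
    refine h1.trans ?_
    have h2 : c ^ n = Real.exp (-(n : ℝ) * x.2) := by
      rw [hcdef, ← Real.exp_nat_mul]
      congr 1
      ring
    rw [← h2]
    calc ∑ i ∈ Finset.range (n + 1), (n.choose i : ℝ) * ‖iteratedFDeriv ℝ i (hc κ) x‖ *
          ‖iteratedFDeriv ℝ (n - i) (hr κ) x‖
        ≤ ∑ i ∈ Finset.range (n + 1), (n.choose i : ℝ) * K i * K' (n - i) * c ^ n := by
          refine Finset.sum_le_sum fun i hi => ?_
          have hin : i ≤ n := Nat.lt_succ_iff.mp (Finset.mem_range.mp hi)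
          have e1 : c ^ n = c ^ i * c ^ (n - i) := by
            rw [← pow_add, Nat.add_sub_cancel' hin]
          calc (n.choose i : ℝ) * ‖iteratedFDeriv ℝ i (hc κ) x‖ *
                ‖iteratedFDeriv ℝ (n - i) (hr κ) x‖
              ≤ (n.choose i : ℝ) * (K i * c ^ i) * (K' (n - i) * c ^ (n - i)) := by
                refine mul_le_mul (mul_le_mul_of_nonneg_left (hK i x hx) (Nat.cast_nonneg _))
                  (hK' (n - i) x hx) (norm_nonneg _) ?_
                exact mul_nonneg (Nat.cast_nonneg _) (mul_nonneg (hK0 i) (pow_nonneg hc0.le i))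
            _ = (n.choose i : ℝ) * K i * K' (n - i) * c ^ n := by rw [e1]; ring
      _ = (∑ i ∈ Finset.range (n + 1), (n.choose i : ℝ) * K i * K' (n - i)) * c ^ n := by
          rw [Finset.sum_mul]

end Pool.Agent.H86.GX
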